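import Mathlib
import Pool.Agent.H24.LoopT

/-!
# MP_0d4ca0_al, Q1

There is a loop of order 128 in which property (T) (all maps `y ↦ x \ (y x)` are automorphisms)
holds universally and which does not have the antiautomorphic inverse property.

The example is an extension of the abelian group `A = Z_2^3 × Z_4` (with underlying set `Fin 32`)
by the Klein four group: on each pair of cosets the three operations are affine over `A`. So an
identity in five variables has to be checked, for each choice of the cosets, only at zero and at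
the generators of `A^5`.
-/

set_option autoImplicit false

open Pool.Agent.H24.LoopT

namespace Pool.Agent.Results.MP_0d4ca0_al.NotAAIP

/-- A loop: a set with a multiplication, a two-sided identity, and the two divisions
`ldiv a b = a \ b` (the unique solution `x` of `a x = b`) and `rdiv b a = b / a` (the unique
solution `y` of `y a = b`). -/
structure LoopStr (Q : Type) where
  mul : Q → Q → Q
  one : Q
  ldiv : Q → Q → Q
  rdiv : Q → Q → Q
  one_mul : ∀ x, mul one x = x
  mul_one : ∀ x, mul x one = x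
  mul_ldiv : ∀ a b, mul a (ldiv a b) = b
  ldiv_mul : ∀ a x, ldiv a (mul a x) = x
  rdiv_mul : ∀ a b, mul (rdiv b a) a = b
  mul_rdiv : ∀ a y, rdiv (mul y a) a = y

/-- Property (T) of a loop operation: for every `x` the map `θ : y ↦ x \ (y x)` is an
automorphism. -/
def TProp {G : Type} (op : G → G → G) : Prop :=
  ∀ x, ∃ θ : Equiv.Perm G, (∀ y, op x (θ y) = op y x) ∧ ∀ y z, θ (op y z) = op (θ y) (θ z)

/-- Property (T) holds universally in `L`: it holds in every loop `(G, op)` which is an isotope of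
`L`, that is, `γ (op u v) = α u * β v` for some bijections `α, β, γ : G → Q`. -/
def LoopStr.UniversalT {Q : Type} (L : LoopStr Q) : Prop :=
  ∀ (G : Type) (op : G → G → G) (e : G) (α β γ : G ≃ Q),
    (∀ x, op e x = x ∧ op x e = x) → (∀ u v, γ (op u v) = L.mul (α u) (β v)) → TProp op

/-- The antiautomorphic inverse property: two-sided inverses, and `(xy)⁻¹ = y⁻¹x⁻¹`. -/
def LoopStr.AAIP {Q : Type} (L : LoopStr Q) : Prop :=
  ∃ inv : Q → Q, (∀ x, L.mul x (inv x) = L.one ∧ L.mul (inv x) x = L.one) ∧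
    ∀ x y, inv (L.mul x y) = L.mul (inv y) (inv x)

/-! ### Reduction to principal isotopes -/

section General

variable {Q : Type} (L : LoopStr Q)

/-- The principal isotope. -/
def iso (a b u v : Q) : Q := L.mul (L.rdiv u b) (L.ldiv a v)

/-- The map `u ↦ x \ (u x)` of the principal isotope. -/
def th (a b x u : Q) : Q := L.mul a (L.ldiv (L.rdiv x b) (iso L a b u x))

def thInv (a b x r : Q) : Q :=
  L.mul (L.rdiv (L.mul (L.rdiv x b) (L.ldiv a r)) (L.ldiv a x)) b

theorem thInv_th (a b x u : Q) : thInv L a b x (th L a b x u) = u := by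
  unfold thInv th iso
  rw [L.ldiv_mul, L.mul_ldiv, L.mul_rdiv, L.rdiv_mul]

theorem th_thInv (a b x r : Q) : th L a b x (thInv L a b x r) = r := by
  unfold thInv th iso
  rw [L.mul_rdiv, L.rdiv_mul, L.ldiv_mul, L.mul_ldiv]

theorem universalT (h : ∀ a b x y z : Q, th L a b x (iso L a b y z) =
    iso L a b (th L a b x y) (th L a b x z)) : L.UniversalT := by
  intro G op e α β γ he hop x
  have hβ : ∀ v, β v = L.ldiv (α e) (γ v) := by
    intro v
    rw [← (he v).1, hop, L.ldiv_mul, (he v).1]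
  have hα : ∀ u, α u = L.rdiv (γ u) (β e) := by
    intro u
    rw [← (he u).2, hop, L.mul_rdiv, (he u).2]
  have hop' : ∀ u v, γ (op u v) = iso L (α e) (β e) (γ u) (γ v) := by
    intro u v
    rw [hop, hα u, hβ v]
    rfl
  generalize α e = a at *
  generalize β e = b at *
  let Θ : Equiv.Perm Q := ⟨th L a b (γ x), thInv L a b (γ x), thInv_th L a b (γ x),
    th_thInv L a b (γ x)⟩
  refine ⟨(γ.trans Θ).trans γ.symm, fun y => ?_, fun y z => ?_⟩
  · apply γ.injective
    rw [hop', hop']
    show iso L a b (γ x) (γ (γ.symm (th L a b (γ x) (γ y)))) = _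
    rw [γ.apply_symm_apply]
    show L.mul (L.rdiv (γ x) b) (L.ldiv a (L.mul a (L.ldiv (L.rdiv (γ x) b) (iso L a b (γ y) (γ x)))))
      = _
    rw [L.ldiv_mul, L.mul_ldiv]
  · apply γ.injective
    rw [hop']
    show γ (γ.symm (th L a b (γ x) (γ (op y z)))) =
      iso L a b (γ (γ.symm (th L a b (γ x) (γ y)))) (γ (γ.symm (th L a b (γ x) (γ z))))
    rw [γ.apply_symm_apply, γ.apply_symm_apply, γ.apply_symm_apply, hop', h]

end General

/-! ### The loop -/

/-- The abelian group `Z_2^3 × Z_4`, coded on `Fin 32`. -/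
def A : Type := Fin 32

instance : Zero A := ⟨(0 : Fin 32)⟩

instance : Add A := ⟨ad⟩

instance : Neg A := ⟨ng⟩

instance : AddCommGroup A where
  add_assoc := ad_assoc'
  zero_add := zero_ad'
  add_zero := fun a => (ad_comm' a 0).trans (zero_ad' a)
  nsmul := nsmulRec
  zsmul := zsmulRec
  neg_add_cancel := ng_ad'
  add_comm := ad_comm'

/-- The generators of `A`. -/
def gen (j : Fin 4) : A := (Fin.ofNat 32 (2 ^ j.val) : Fin 32)

theorem gen_val : ∀ j : Fin 4, Fin.val (n := 32) (gen j) = 2 ^ j.val := by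
  show ∀ j : Fin 4, (Fin.ofNat 32 (2 ^ j.val) : Fin 32).val = 2 ^ j.val
  decide

/-- The operations on the parts in `A`. -/
noncomputable def op (k : Nat) (s t : Fin 4) (a b : A) : A := opA k s t a b

theorem op_split (k : Nat) (s t : Fin 4) (a b : A) :
    op k s t a b = op k s t a 0 + op k s t 0 b + - op k s t 0 0 := by
  match k with
  | 0 => exact aff0 s t a b
  | 1 => exact aff1 s t a b
  | (_ + 2) => exact aff2 s t a b

theorem op_homL (k : Nat) (s t : Fin 4) (a b : A) :
    op k s t (a + b) 0 = op k s t a 0 + op k s t b 0 + - op k s t 0 0 := by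
  match k with
  | 0 => exact homL0 s t a b
  | 1 => exact homL1 s t a b
  | (_ + 2) => exact homL2 s t a b

theorem op_homR (k : Nat) (s t : Fin 4) (a b : A) :
    op k s t 0 (a + b) = op k s t 0 a + op k s t 0 b + - op k s t 0 0 := by
  match k with
  | 0 => exact homR0 s t a b
  | 1 => exact homR1 s t a b
  | (_ + 2) => exact homR2 s t a b

noncomputable def PL (k : Nat) (s t : Fin 4) : A →+ A where
  toFun a := op k s t a 0 - op k s t 0 0
  map_zero' := sub_self _
  map_add' a b := by
    rw [op_homL]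
    abel

noncomputable def PR (k : Nat) (s t : Fin 4) : A →+ A where
  toFun a := op k s t 0 a - op k s t 0 0
  map_zero' := sub_self _
  map_add' a b := by
    rw [op_homR]
    abel

theorem op_eq (k : Nat) (s t : Fin 4) (a b : A) :
    op k s t a b = PL k s t a + PR k s t b + op k s t 0 0 := by
  show _ = (op k s t a 0 - op k s t 0 0) + (op k s t 0 b - op k s t 0 0) + op k s t 0 0
  rw [op_split]
  abel

/-- Terms in five variables. -/
inductive Tm
  | v (i : Fin 5)
  | o (k : Nat) (t u : Tm)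

namespace Tm

noncomputable def S (σ : Fin 5 → Fin 4) : Tm → Fin 4
  | v i => σ i
  | o _ t u => xs (t.S σ) (u.S σ)

noncomputable def V (σ : Fin 5 → Fin 4) (w : Fin 5 → A) : Tm → A
  | v i => w i
  | o k t u => op k (t.S σ) (u.S σ) (t.V σ w) (u.V σ w)

noncomputable def N (w : Fin 5 → Nat) : Tm → Nat
  | v i => w i
  | o k t u => opN k (t.N w) (u.N w)

noncomputable def P (q : Fin 5 → Fin 4 × A) : Tm → Fin 4 × A
  | v i => q i
  | o k t u => (xs (t.P q).1 (u.P q).1, op k (t.P q).1 (u.P q).1 (t.P q).2 (u.P q).2)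

theorem P_eq (q : Fin 5 → Fin 4 × A) (t : Tm) :
    t.P q = (t.S (fun i => (q i).1), t.V (fun i => (q i).1) (fun i => (q i).2)) := by
  induction t with
  | v i => rfl
  | o k t u iht ihu =>
    show (xs (t.P q).1 (u.P q).1, op k (t.P q).1 (u.P q).1 (t.P q).2 (u.P q).2) = _
    rw [iht, ihu]
    rfl

theorem N_eq (σ : Fin 5 → Fin 4) (w : Fin 5 → A) (t : Tm) :
    t.N (fun i => encN (σ i).val (Fin.val (n := 32) (w i))) =
      encN (t.S σ).val (Fin.val (n := 32) (t.V σ w)) := by
  induction t with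
  | v i => rfl
  | o k t u iht ihu =>
    show opN k (t.N _) (u.N _) = _
    rw [iht, ihu]
    match k with
    | 0 => exact enc0 (t.S σ) (u.S σ) (t.V σ w) (u.V σ w)
    | 1 => exact enc1 (t.S σ) (u.S σ) (t.V σ w) (u.V σ w)
    | (_ + 2) => exact enc2 (t.S σ) (u.S σ) (t.V σ w) (u.V σ w)

/-- On fixed cosets each term is affine. -/
theorem V_aff (σ : Fin 5 → Fin 4) (t : Tm) (w w' : Fin 5 → A) :
    t.V σ (w + w') = t.V σ w + t.V σ w' - t.V σ 0 := by
  induction t with
  | v i =>
    show w i + w' i = w i + w' i - 0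
    rw [sub_zero]
  | o k t u iht ihu =>
    show op k (t.S σ) (u.S σ) (t.V σ (w + w')) (u.V σ (w + w')) =
      op k (t.S σ) (u.S σ) (t.V σ w) (u.V σ w) + op k (t.S σ) (u.S σ) (t.V σ w') (u.V σ w') -
        op k (t.S σ) (u.S σ) (t.V σ 0) (u.V σ 0)
    rw [op_eq k _ _ (t.V σ (w + w')), op_eq k _ _ (t.V σ w), op_eq k _ _ (t.V σ w'),
      op_eq k _ _ (t.V σ 0), iht, ihu, map_sub, map_add, map_sub, map_add]
    abel

end Tm

theorem A_ind (p : A → Prop) (h0 : p 0) (h : ∀ j : Fin 4, p (gen j))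
    (ha : ∀ a b, p a → p b → p (a + b)) (a : A) : p a := by
  have key : ∀ a : Fin 32, a = ad (ad (ad (ad (if a.val.testBit 0 then 1 else 0)
      (if a.val.testBit 1 then 2 else 0)) (if a.val.testBit 2 then 4 else 0))
      (if a.val.testBit 3 then 8 else 0)) (if a.val.testBit 4 then ad 8 8 else 0) := by
    decide +kernel
  have g1 : p (1 : Fin 32) := h 0
  have g2 : p (2 : Fin 32) := h 1
  have g4 : p (4 : Fin 32) := h 2
  have g8 : p (8 : Fin 32) := h 3
  have h0' : p (0 : Fin 32) := h0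
  have e := key a
  have : p (ad (ad (ad (ad (if (Fin.val (n := 32) a).testBit 0 then 1 else 0)
      (if (Fin.val (n := 32) a).testBit 1 then 2 else 0))
      (if (Fin.val (n := 32) a).testBit 2 then 4 else 0))
      (if (Fin.val (n := 32) a).testBit 3 then 8 else 0))
      (if (Fin.val (n := 32) a).testBit 4 then ad 8 8 else 0)) := by
    refine ha _ _ (ha _ _ (ha _ _ (ha _ _ ?_ ?_) ?_) ?_) ?_
    · split_ifs; exacts [g1, h0']
    · split_ifs; exacts [g2, h0']
    · split_ifs; exacts [g4, h0']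
    · split_ifs; exacts [g8, h0']
    · split_ifs; exacts [ha _ _ g8 g8, h0']
  rw [e]
  exact this

/-- Two terms which agree at zero and at the generators agree everywhere (on fixed cosets). -/
theorem Tm.V_ext (σ : Fin 5 → Fin 4) (t u : Tm) (h0 : t.V σ 0 = u.V σ 0)
    (h : ∀ (i : Fin 5) (j : Fin 4), t.V σ (Pi.single i (gen j)) =
      u.V σ (Pi.single i (gen j))) (w : Fin 5 → A) :
    t.V σ w = u.V σ w := by
  have hadd : ∀ w w' : Fin 5 → A, t.V σ w = u.V σ w → t.V σ w' = u.V σ w' →
      t.V σ (w + w') = u.V σ (w + w') := by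
    intro w w' h1 h2
    rw [t.V_aff, u.V_aff, h0, h1, h2]
  have h1 : ∀ (i : Fin 5) (a : A), t.V σ (Pi.single i a) = u.V σ (Pi.single i a) := by
    intro i a
    refine A_ind (fun a => t.V σ (Pi.single i a) = u.V σ (Pi.single i a)) ?_ (fun j => h i j)
      ?_ a
    · show t.V σ (Pi.single i 0) = u.V σ (Pi.single i 0)
      rw [Pi.single_zero]
      exact h0
    · intro a b ha hb
      show t.V σ (Pi.single i (a + b)) = u.V σ (Pi.single i (a + b))
      rw [Pi.single_add]
      exact hadd _ _ ha hb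
  have h2 : ∀ s : Finset (Fin 5), t.V σ (∑ i ∈ s, Pi.single i (w i)) =
      u.V σ (∑ i ∈ s, Pi.single i (w i)) := by
    intro s
    induction s using Finset.induction_on with
    | empty => simpa using h0
    | insert i s hi ih =>
      rw [Finset.sum_insert hi]
      exact hadd _ _ (h1 i (w i)) ih
  have h3 := h2 Finset.univ
  rwa [Finset.univ_sum_single] at h3

/-! The two sides of the identity; the variables are `a, b, x, y, z`. -/

open Tm in
def tO (u w : Tm) : Tm := o 0 (o 2 u (v 1)) (o 1 (v 0) w)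

open Tm in
def tTh (u : Tm) : Tm :=
  o 0 (v 0) (o 1 (o 2 (v 2) (v 1)) (o 0 (o 2 u (v 1)) (o 1 (v 0) (v 2))))

open Tm in
def lhs : Tm := tTh (tO (v 3) (v 4))

open Tm in
def rhs : Tm := tO (tTh (v 3)) (tTh (v 4))

theorem TN_iff (w : Fin 5 → Nat) (h : TN (w 0) (w 1) (w 2) (w 3) (w 4) = true) :
    lhs.N w = rhs.N w := by
  unfold TN at h
  rw [fz_eq, fz_eq] at h
  exact Nat.eq_of_beq_eq_true h

theorem encN_inj : ∀ s t : Fin 4, ∀ a b : Fin 32, encN s.val a.val = encN t.val b.val →
    s = t ∧ a = b := by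
  intro s t a b h
  have h1 := a.isLt
  have h2 := b.isLt
  have h' : s.val * 32 + a.val = t.val * 32 + b.val := h
  constructor
  · apply Fin.ext; omega
  · apply Fin.ext; omega

theorem test (σ : Fin 5 → Fin 4) (e : Nat) (he : e < 21) :
    lhs.N (fun i => encN (σ i).val (ev e i.val)) = rhs.N (fun i => encN (σ i).val (ev e i.val)) := by
  apply TN_iff
  have h1 := allB_spec (chkAll (σ 0) (σ 1)) e he
  have h2 := allB_spec h1 _ (σ 2).isLt
  have h3 := allB_spec h2 _ (σ 3).isLt
  have h4 := allB_spec h3 _ (σ 4).isLt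
  rw [fz_eq, fz_eq, fz_eq, fz_eq, fz_eq] at h4
  exact h4

theorem ev_zero : ∀ i : Fin 5, ev 20 i.val = 0 := by decide

theorem ev_single : ∀ (i j : Fin 5) (k : Fin 4),
    ev (4 * i.val + k.val) j.val = if j = i then 2 ^ k.val else 0 := by decide

theorem test_zero (σ : Fin 5 → Fin 4) : lhs.S σ = rhs.S σ ∧ lhs.V σ 0 = rhs.V σ 0 := by
  have h := test σ 20 (by norm_num)
  have e : (fun i : Fin 5 => encN (σ i).val (ev 20 i.val)) =
      fun i => encN (σ i).val (Fin.val (n := 32) ((0 : Fin 5 → A) i)) := by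
    funext i
    rw [ev_zero i]
    rfl
  rw [e, Tm.N_eq, Tm.N_eq] at h
  exact encN_inj _ _ _ _ h

theorem test_single (σ : Fin 5 → Fin 4) (i : Fin 5) (j : Fin 4) :
    lhs.V σ (Pi.single i (gen j)) =
      rhs.V σ (Pi.single i (gen j)) := by
  have h := test σ (4 * i.val + j.val) (by have := i.isLt; have := j.isLt; omega)
  have e : (fun l : Fin 5 => encN (σ l).val (ev (4 * i.val + j.val) l.val)) =
      fun l => encN (σ l).val (Fin.val (n := 32)
        ((Pi.single i (gen j) : Fin 5 → A) l)) := by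
    funext l
    rw [ev_single i l j]
    congr 1
    by_cases hl : l = i
    · subst hl
      rw [if_pos rfl, Pi.single_eq_same, gen_val]
    · rw [if_neg hl, Pi.single_eq_of_ne hl]
      rfl
  rw [e, Tm.N_eq, Tm.N_eq] at h
  exact (encN_inj _ _ _ _ h).2

theorem identity (q : Fin 5 → Fin 4 × A) : lhs.P q = rhs.P q := by
  rw [Tm.P_eq, Tm.P_eq]
  have h := test_zero (fun i => (q i).1)
  rw [h.1, Tm.V_ext _ lhs rhs h.2 (fun i j => test_single _ i j)]

/-- The loop of order 128. -/
noncomputable def Lp : LoopStr (Fin 4 × A) where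
  mul p q := (xs p.1 q.1, op 0 p.1 q.1 p.2 q.2)
  one := (0, 0)
  ldiv p q := (xs p.1 q.1, op 1 p.1 q.1 p.2 q.2)
  rdiv p q := (xs p.1 q.1, op 2 p.1 q.1 p.2 q.2)
  one_mul p := Prod.ext (loop1 p.1 p.2).1 (loop1 p.1 p.2).2.1
  mul_one p := Prod.ext (loop1 p.1 p.2).2.2.1 (loop1 p.1 p.2).2.2.2
  mul_ldiv p q := Prod.ext (xs_xs p.1 q.1).1 (loop2 p.1 q.1 p.2 q.2).1
  ldiv_mul p q := Prod.ext (xs_xs p.1 q.1).1 (loop2 p.1 q.1 p.2 q.2).2
  rdiv_mul p q := Prod.ext (xs_xs q.1 p.1).2 (loop3 q.1 p.1 q.2 p.2).1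
  mul_rdiv p q := Prod.ext (xs_xs q.1 p.1).2 (loop3 q.1 p.1 q.2 p.2).2

theorem not_aaip : ¬ Lp.AAIP := by
  rintro ⟨inv, h1, h2⟩
  have hinv : ∀ x, inv x = Lp.ldiv x Lp.one := by
    intro x
    rw [← (h1 x).1, Lp.ldiv_mul]
  have h3 := h2 (1, (0 : Fin 32)) (2, (0 : Fin 32))
  rw [hinv, hinv, hinv] at h3
  have h4 := congrArg (fun p : Fin 4 × A => Fin.val (n := 32) p.2) h3
  revert h4
  show ¬ ((opA 1 (xs 1 2) 0 (opA 0 1 2 0 0) 0).val =
    (opA 0 (xs 2 0) (xs 1 0) (opA 1 2 0 0 0) (opA 1 1 0 0 0)).val)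
  decide +kernel

/-- There is a loop of order 128 in which property (T) holds universally and which does not have
the antiautomorphic inverse property. -/
theorem result : ∃ (Q : Type) (L : LoopStr Q),
    Nat.card Q = 128 ∧ L.UniversalT ∧ ¬ L.AAIP := by
  refine ⟨Fin 4 × A, Lp, ?_, universalT Lp fun a b x y z => ?_, not_aaip⟩
  · have : Nat.card (Fin 4 × Fin 32) = 128 := by
      rw [Nat.card_eq_fintype_card]
      rfl
    exact this
  · exact identity ![a, b, x, y, z]

end Pool.Agent.Results.MP_0d4ca0_al.NotAAIP
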